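import Pool.Agent.D0H19.SL.Stm
import Pool.Agent.D0H41.SF.Basic

/-! # LOC2: congruence classes with given completion -/

set_option autoImplicit false

open Polynomial

namespace Pool.Agent.D0H51.SL

open Pool.Agent.D0H19.SL Pool.Agent.D0H41.SG
open Pool.Agent.D0H41.SF (pol pol_monic pol_natDegree pol_coeff pol_coeff_pred)

/-- integers are dense in the `p`-adic integers -/
theorem exists_int (p : ℕ) [Fact p.Prime] (x : ℚ_[p]) (hx : ‖x‖ ≤ 1) (t : ℕ) :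
    ∃ b : ℤ, ‖(b : ℚ_[p]) - x‖ ≤ ((p : ℝ) ^ t)⁻¹ := by
  obtain ⟨y, hy⟩ : ∃ y : ℤ_[p], (y : ℚ_[p]) = x := ⟨⟨x, hx⟩, rfl⟩
  refine ⟨(y.appr t : ℕ), ?_⟩
  have h1 := (PadicInt.norm_le_pow_iff_mem_span_pow _ t).2 (PadicInt.appr_spec t y)
  rw [zpow_neg, zpow_natCast] at h1
  rw [← hy, norm_sub_rev]
  refine le_trans (le_of_eq ?_) h1
  rw [PadicInt.norm_def]
  push_cast
  rfl

theorem norm_dvd (p : ℕ) [Fact p.Prime] (t : ℕ) (z : ℤ) (h : ((p ^ t : ℕ) : ℤ) ∣ z) :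
    ‖(z : ℚ_[p])‖ ≤ ((p : ℝ) ^ t)⁻¹ := by
  obtain ⟨w, rfl⟩ := h
  push_cast
  rw [norm_mul, norm_pow, Padic.norm_p, inv_pow]
  have h1 : ‖(w : ℚ_[p])‖ ≤ 1 := Padic.norm_int_le_one w
  have h2 : 0 ≤ ((p : ℝ) ^ t)⁻¹ := by positivity
  exact mul_le_of_le_one_right h2 h1

theorem t_LOC2 : S_NEAR → S_TRZ → S_LOC2 := by
  intro hN hT p _ n f hn hm hd hs
  obtain ⟨F, hFm, hFd, hFs, hF1, hF0, ⟨e⟩⟩ := hT p n f (by omega) hm hd hs
  obtain ⟨ε, hε, hnear⟩ := hN p n F hFm hFd hFs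
  have hp1 : (1 : ℝ) < p := by exact_mod_cast (Fact.out : p.Prime).one_lt
  obtain ⟨t, ht⟩ : ∃ t : ℕ, ((p : ℝ) ^ t)⁻¹ ≤ ε := by
    obtain ⟨t, ht⟩ := pow_unbounded_of_one_lt (ε⁻¹) hp1
    refine ⟨t, ?_⟩
    rw [inv_le_comm₀ (by positivity) hε]
    exact ht.le
  choose b hb using fun i : Fin (n - 1) => exists_int p (F.coeff (i : ℕ)) (hF1 i) t
  refine ⟨t, b, fun a ha => ?_⟩
  have hGm : ((pol n a).map (Int.castRingHom ℚ_[p])).Monic := (pol_monic n (by omega) a).map _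
  have hGd : ((pol n a).map (Int.castRingHom ℚ_[p])).natDegree = n := by
    rw [(pol_monic n (by omega) a).natDegree_map, pol_natDegree n (by omega)]
  obtain ⟨e'⟩ := hnear _ hGm hGd fun i => by
    refine le_trans ?_ ht
    have h0 : (0 : ℝ) ≤ ((p : ℝ) ^ t)⁻¹ := by positivity
    rcases lt_trichotomy i (n - 1) with hi | hi | hi
    · rw [coeff_map, show i = ((⟨i, hi⟩ : Fin (n - 1)) : ℕ) from rfl, pol_coeff]
      have h1 : ((Int.castRingHom ℚ_[p]) (a ⟨i, hi⟩)) - F.coeff i =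
          ((a ⟨i, hi⟩ - b ⟨i, hi⟩ : ℤ) : ℚ_[p]) + ((b ⟨i, hi⟩ : ℚ_[p]) - F.coeff i) := by
        rw [eq_intCast]
        push_cast
        ring
      rw [h1]
      refine (Padic.nonarchimedean _ _).trans (max_le ?_ (hb ⟨i, hi⟩))
      exact norm_dvd p t _ (ha ⟨i, hi⟩)
    · rw [hi, coeff_map, pol_coeff_pred n (by omega), hF0]
      simp
    · rcases Nat.eq_or_lt_of_le (show n ≤ i by omega) with hi2 | hi2
      · have h1 : ((pol n a).map (Int.castRingHom ℚ_[p])).coeff i = 1 := by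
          rw [← hi2]
          nth_rewrite 2 [← hGd]
          exact hGm
        have h2 : F.coeff i = 1 := by
          rw [← hi2]
          nth_rewrite 1 [← hFd]
          exact hFm
        rw [h1, h2]
        simp
      · rw [coeff_eq_zero_of_natDegree_lt (by omega), coeff_eq_zero_of_natDegree_lt (by omega)]
        simp
  exact ⟨e'.trans e⟩

end Pool.Agent.D0H51.SL
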