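import Pool.Agent.D0H19.SL.Stm
import Pool.Agent.D0H41.SF.Basic

/-! # TEN: the completion of `ℚ(θ)` -/

set_option autoImplicit false

open Polynomial TensorProduct

namespace Pool.Agent.D0H51.SL

open Pool.Agent.D0H19.SL Pool.Agent.D0H41.SG
open Pool.Agent.D0H41.SF (Qb pol polQ minpoly_root integral_root)
open IntermediateField (adjoin)

/-- base change of `R[x] / (f)` -/
theorem ten_root (R T : Type) [Field R] [Field T] [Algebra R T] (f : R[X]) :
    Nonempty (T ⊗[R] AdjoinRoot f ≃ₐ[T] AdjoinRoot (f.map (algebraMap R T))) := by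
  have h1 : eval₂ ((Algebra.ofId R (AdjoinRoot (f.map (algebraMap R T)))) : R →+* _)
      (AdjoinRoot.root (f.map (algebraMap R T))) f = 0 := by
    have h2 := AdjoinRoot.eval₂_root (f.map (algebraMap R T))
    rw [eval₂_map] at h2
    exact h2
  have h3 : eval₂ ((Algebra.ofId T (T ⊗[R] AdjoinRoot f)) : T →+* _)
      ((1 : T) ⊗ₜ[R] AdjoinRoot.root f) (f.map (algebraMap R T)) = 0 := by
    rw [eval₂_map]
    have h4 := congrArg (Algebra.TensorProduct.includeRight : AdjoinRoot f →ₐ[R] T ⊗[R] AdjoinRoot f)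
      (AdjoinRoot.eval₂_root f)
    rw [map_zero] at h4
    rw [← h4]
    have h5 := hom_eval₂ f (AdjoinRoot.of f)
      (Algebra.TensorProduct.includeRight : AdjoinRoot f →ₐ[R] T ⊗[R] AdjoinRoot f).toRingHom
      (AdjoinRoot.root f)
    have h6 : (Algebra.TensorProduct.includeRight :
        AdjoinRoot f →ₐ[R] T ⊗[R] AdjoinRoot f).toRingHom.comp (AdjoinRoot.of f) =
        ((Algebra.ofId T (T ⊗[R] AdjoinRoot f)) : T →+* _).comp (algebraMap R T) := by
      ext r
      have h7 : (AdjoinRoot.of f) r = algebraMap R (AdjoinRoot f) r := rfl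
      simp only [RingHom.comp_apply, h7]
      show (Algebra.TensorProduct.includeRight : AdjoinRoot f →ₐ[R] T ⊗[R] AdjoinRoot f)
        (algebraMap R (AdjoinRoot f) r) = _
      rw [AlgHom.commutes]
      exact (IsScalarTower.algebraMap_apply R T (T ⊗[R] AdjoinRoot f) r)
    rw [h6] at h5
    exact h5.symm
  refine ⟨AlgEquiv.ofAlgHom
    (Algebra.TensorProduct.lift (Algebra.ofId T (AdjoinRoot (f.map (algebraMap R T))))
      (AdjoinRoot.liftAlgHom f (Algebra.ofId R (AdjoinRoot (f.map (algebraMap R T)))) _ h1)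
      (fun _ _ => Commute.all _ _))
    (AdjoinRoot.liftAlgHom _ (Algebra.ofId T (T ⊗[R] AdjoinRoot f)) _ h3) ?_ ?_⟩
  · ext
    simp
  · ext
    simp

theorem t_TEN : S_TEN := by
  intro n a θ hn hirr hθ p _
  have hmin : minpoly ℚ θ = polQ n a := minpoly_root n hn a θ hirr hθ
  have hint : IsIntegral ℚ θ := (integral_root n hn a θ hθ).tower_top
  obtain ⟨e⟩ := ten_root ℚ ℚ_[p] (minpoly ℚ θ)
  have e1 : AdjoinRoot (minpoly ℚ θ) ≃ₐ[ℚ] adjoin ℚ {θ} := IntermediateField.adjoinRootEquivAdjoin ℚ hint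
  have h2 : (minpoly ℚ θ).map (algebraMap ℚ ℚ_[p]) = (pol n a).map (Int.castRingHom ℚ_[p]) := by
    rw [hmin]
    unfold polQ
    rw [Polynomial.map_map]
    congr 1
  rw [h2] at e
  exact ⟨(Algebra.TensorProduct.congr (AlgEquiv.refl) e1.symm).trans e⟩

end Pool.Agent.D0H51.SL
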