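import Pool.Agent.D0H19.SL.Stm

/-! # TRZ: linear substitution -/

set_option autoImplicit false

open Polynomial

namespace Pool.Agent.D0H51.SL

open Pool.Agent.D0H19.SL

section
variable {K : Type} [Field K]

theorem iso_subst (f F : K[X]) (u v : K) (hu : u ≠ 0) (e : K) (he : e ≠ 0)
    (hF : F = C e * f.comp (C u⁻¹ * X + C v)) : Nonempty (AdjoinRoot F ≃ₐ[K] AdjoinRoot f) := by
  have : Invertible u⁻¹ := invertibleOfNonzero (inv_ne_zero hu)
  have h1 : (Ideal.span {F} : Ideal K[X]) =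
      (Ideal.span {f} : Ideal K[X]).map (algEquivCMulXAddC u⁻¹ v : K[X] →+* K[X]) := by
    rw [Ideal.map_span, Set.image_singleton]
    have h2 : ((algEquivCMulXAddC u⁻¹ v : K[X] ≃ₐ[K] K[X]) : K[X] →+* K[X]) f =
        f.comp (C u⁻¹ * X + C v) := by
      simp [algEquivCMulXAddC_apply, Polynomial.comp, Polynomial.eval₂_eq_sum, Polynomial.aeval_def]
    rw [h2, hF, mul_comm]
    exact Ideal.span_singleton_mul_right_unit (isUnit_C.2 (isUnit_iff_ne_zero.2 he)) _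
  exact ⟨(Ideal.quotientEquivAlg (Ideal.span {f}) (Ideal.span {F}) (algEquivCMulXAddC u⁻¹ v) h1).symm⟩

theorem sep_subst (f : K[X]) (hf : f.Separable) (u v : K) (hu : u ≠ 0) (e : K) (he : e ≠ 0) :
    (C e * f.comp (C u⁻¹ * X + C v)).Separable := by
  obtain ⟨a, b, hab⟩ := hf
  refine ⟨C e⁻¹ * a.comp (C u⁻¹ * X + C v), C e⁻¹ * (C u * b.comp (C u⁻¹ * X + C v)), ?_⟩
  have h1 : derivative (C e * f.comp (C u⁻¹ * X + C v)) =
      C e * (C u⁻¹ * (derivative f).comp (C u⁻¹ * X + C v)) := by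
    rw [derivative_mul, derivative_C, zero_mul, zero_add, derivative_comp]
    simp
  rw [h1]
  have h2 : (C e⁻¹ : K[X]) * C e = 1 := by rw [← C_mul, inv_mul_cancel₀ he, C_1]
  have h3 : (C u : K[X]) * C u⁻¹ = 1 := by rw [← C_mul, mul_inv_cancel₀ hu, C_1]
  have h4 := congrArg (fun p : K[X] => p.comp (C u⁻¹ * X + C v)) hab
  simp only [add_comp, mul_comp, one_comp] at h4
  calc C e⁻¹ * a.comp (C u⁻¹ * X + C v) * (C e * f.comp (C u⁻¹ * X + C v)) +
        C e⁻¹ * (C u * b.comp (C u⁻¹ * X + C v)) * (C e * (C u⁻¹ * (derivative f).comp (C u⁻¹ * X + C v)))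
      = (C e⁻¹ * C e) * (a.comp (C u⁻¹ * X + C v) * f.comp (C u⁻¹ * X + C v)) +
        (C e⁻¹ * C e) * (C u * C u⁻¹) * (b.comp (C u⁻¹ * X + C v) * (derivative f).comp (C u⁻¹ * X + C v)) := by ring
    _ = 1 := by rw [h2, h3, one_mul, one_mul, one_mul, h4]

theorem coeff_subst (f : K[X]) (u v e : K) (i : ℕ) :
    (C e * f.comp (C u⁻¹ * X + C v)).coeff i = e * ((taylor v f).coeff i * u⁻¹ ^ i) := by
  rw [coeff_C_mul]
  congr 1
  have h1 : f.comp (C u⁻¹ * X + C v) = (taylor v f).comp (C u⁻¹ * X) := by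
    rw [taylor_apply, comp_assoc]
    simp
  rw [h1, comp_C_mul_X_coeff]

theorem coeff_top (f : K[X]) (n : ℕ) (hn : 1 ≤ n) (hm : f.Monic) (hd : f.natDegree = n) (v : K) :
    (taylor v f).coeff (n - 1) = f.coeff (n - 1) + n * v := by
  rw [taylor_coeff]
  have h1 : (hasseDeriv (n - 1) f).natDegree ≤ 1 := by
    have := natDegree_hasseDeriv_le f (n - 1)
    omega
  rw [eq_X_add_C_of_natDegree_le_one h1, hasseDeriv_coeff, hasseDeriv_coeff]
  have h2 : 1 + (n - 1) = n := by omega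
  have h3 : f.coeff n = 1 := by rw [← hd]; exact hm
  rw [h2, h3]
  have h4 : Nat.choose n (n - 1) = n := by
    rw [Nat.choose_symm hn, Nat.choose_one_right]
  rw [h4]
  simp
  ring

end

theorem t_TRZ : S_TRZ := by
  intro p _ n f hn hm hd hs
  obtain ⟨v, hv⟩ : ∃ v : ℚ_[p], v = -(f.coeff (n - 1)) / n := ⟨_, rfl⟩
  have hn0 : (n : ℚ_[p]) ≠ 0 := Nat.cast_ne_zero.2 (by omega)
  obtain ⟨k, hk⟩ : ∃ k : ℕ, ∀ i ∈ Finset.range (n + 1), ‖(taylor v f).coeff i‖ ≤ (p : ℝ) ^ k := by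
    have hp1 : (1 : ℝ) < p := by exact_mod_cast (Fact.out : p.Prime).one_lt
    obtain ⟨k, hk⟩ := pow_unbounded_of_one_lt (∑ i ∈ Finset.range (n + 1), ‖(taylor v f).coeff i‖) hp1
    refine ⟨k, fun i hi => le_trans ?_ hk.le⟩
    exact Finset.single_le_sum (f := fun i => ‖(taylor v f).coeff i‖) (fun j _ => norm_nonneg _) hi
  obtain ⟨u, hu⟩ : ∃ u : ℚ_[p], u = (p : ℚ_[p]) ^ k := ⟨_, rfl⟩
  have hp0 : (p : ℚ_[p]) ≠ 0 := Nat.cast_ne_zero.2 (Fact.out : p.Prime).ne_zero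
  have hu0 : u ≠ 0 := by rw [hu]; exact pow_ne_zero _ hp0
  have hun : ‖u‖ = ((p : ℝ) ^ k)⁻¹ := by
    rw [hu, norm_pow, Padic.norm_p, inv_pow]
  have hpk : (1 : ℝ) ≤ (p : ℝ) ^ k := one_le_pow₀ (by exact_mod_cast (Fact.out : p.Prime).one_lt.le)
  have hu1 : ‖u‖ ≤ 1 := by
    rw [hun]
    exact inv_le_one_of_one_le₀ hpk
  obtain ⟨F, hF⟩ : ∃ F : ℚ_[p][X], F = C (u ^ n) * f.comp (C u⁻¹ * X + C v) := ⟨_, rfl⟩
  have he : u ^ n ≠ 0 := pow_ne_zero _ hu0
  have hg : (taylor v f).natDegree = n := by rw [natDegree_taylor, hd]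
  have hc : ∀ i, F.coeff i = u ^ n * ((taylor v f).coeff i * u⁻¹ ^ i) := fun i => by
    rw [hF, coeff_subst]
  have hbig : ∀ i, n < i → F.coeff i = 0 := fun i hi => by
    rw [hc, coeff_eq_zero_of_natDegree_lt (by omega)]
    ring
  have htop : (taylor v f).coeff n = 1 := by
    rw [taylor_coeff]
    have h1 : (hasseDeriv n f).natDegree ≤ 0 := by
      have := natDegree_hasseDeriv_le f n
      omega
    rw [eq_C_of_natDegree_le_zero h1, hasseDeriv_coeff]
    have h3 : f.coeff n = 1 := by rw [← hd]; exact hm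
    simp [h3]
  have hFn : F.coeff n = 1 := by
    rw [hc, htop, one_mul, inv_pow, mul_inv_cancel₀ he]
  have hFd : F.natDegree = n := natDegree_eq_of_le_of_coeff_ne_zero
    (natDegree_le_iff_coeff_eq_zero.2 fun i hi => hbig i hi) (by rw [hFn]; exact one_ne_zero)
  have hFm : F.Monic := by
    unfold Monic leadingCoeff
    rw [hFd, hFn]
  refine ⟨F, hFm, hFd, ?_, fun i => ?_, ?_, ?_⟩
  · rw [hF]
    exact sep_subst f hs u v hu0 _ he
  · rcases lt_trichotomy i n with hi | hi | hi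
    · rw [hc]
      have e1 : u ^ n * ((taylor v f).coeff i * u⁻¹ ^ i) = u ^ (n - i) * (taylor v f).coeff i := by
        have e2 : u ^ n = u ^ (n - i) * u ^ i := by rw [← pow_add]; congr 1; omega
        rw [e2, inv_pow]
        field_simp
      rw [e1, norm_mul, norm_pow]
      have e3 : ‖u‖ ^ (n - i) ≤ ‖u‖ := by
        calc ‖u‖ ^ (n - i) ≤ ‖u‖ ^ 1 := pow_le_pow_of_le_one (norm_nonneg _) hu1 (by omega)
          _ = ‖u‖ := pow_one _
      calc ‖u‖ ^ (n - i) * ‖(taylor v f).coeff i‖ ≤ ‖u‖ * (p : ℝ) ^ k :=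
            mul_le_mul e3 (hk i (Finset.mem_range.2 (by omega))) (norm_nonneg _) (norm_nonneg _)
        _ = 1 := by
            rw [hun]
            exact inv_mul_cancel₀ (by positivity)
    · rw [hi, hFn, norm_one]
    · rw [hbig i hi, norm_zero]
      exact zero_le_one
  · rw [hc, coeff_top f n (by omega) hm hd v, hv]
    have : f.coeff (n - 1) + (n : ℚ_[p]) * (-(f.coeff (n - 1)) / n) = 0 := by
      field_simp
      ring
    rw [this]
    ring
  · exact iso_subst f F u v hu0 _ he hF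

end Pool.Agent.D0H51.SL
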